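import Pool.Agent.LOW.MAIN
import Pool.Agent.LOW.BR
import Pool.Agent.LOW.CHAIN
import Pool.Agent.LOW.CNT
import Pool.Agent.LOW.CODT
import Pool.Agent.LOW.COLL
import Pool.Agent.LOW.DENS1
import Pool.Agent.LOW.DENS2
import Pool.Agent.LOW.DTT
import Pool.Agent.LOW.EVEN
import Pool.Agent.LOW.GEN
import Pool.Agent.LOW.GOOD
import Pool.Agent.LOW.LB
import Pool.Agent.LOW.LOCN
import Pool.Agent.LOW.MACH
import Pool.Agent.LOW.NPP
import Pool.Agent.LOW.OPEN
import Pool.Agent.LOW.ORC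
import Pool.Agent.LOW.REPL
import Pool.Agent.LOW.ROBDT
import Pool.Agent.LOW.RUNDT
import Pool.Agent.LOW.SEL
import Pool.Agent.LOW.SIG
import Pool.Agent.LOW.SL
import Pool.Agent.LOW.SLE
import Pool.Agent.LOW.SMALL
import Pool.Agent.LOW.STEP
import Pool.Agent.LOW.STEPG
import Pool.Agent.LOW.UNI
import Pool.Agent.LOW.UREC
import Pool.Agent.LOW.UZ
import Pool.Agent.LOW.VAL
import Pool.Agent.LOW.WTS

/-!
# NP and parity-P in a relativised world with an infinite polynomial hierarchy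
-/

set_option autoImplicit false

namespace Pool.Agent.Results.MP_68cb2e_lc.InfiniteHierarchy

open Pool.Agent.LOW

/-- There is an oracle `O` such that, relative to `O`, the polynomial hierarchy is infinite,
`NP ∩ ⊕P` is contained in the low hierarchy, and in fact every language `A` in `NP ∩ ⊕P` is in `P`
and satisfies `Σ_k^{P,A} = Σ_k^P` for all `k`. -/
theorem result : ∃ O : Lang, (∀ k, Sigma k O emp ≠ Sigma (k + 1) O emp) ∧
    NP O ∩ ParP O ⊆ LH O ∧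
    ∀ A ∈ NP O ∩ ParP O, A ∈ P O emp ∧ ∀ k, Sigma k O A = Sigma k O emp := by
  have hLOC : T_LOC := p_LOC p_LEN
  have hLOCN : T_LOCN := p_LOCN hLOC
  have hORCLOC : T_ORCLOC := p_ORCLOC p_DEP
  have hDTT : T_DTT := p_DTT p_CHAIN p_SEL p_EVEN
  have hROBDT : T_ROBDT := p_ROBDT p_RUNDT hDTT p_DEP
  have hCODT : T_CODT := p_CODT p_RUNDT hROBDT p_DEP
  have hCOLL : T_COLL := p_COLL p_VALS (p_VAL p_TRN) (p_UNI p_STAY)
  have hNPP : T_NPP := p_NPP hROBDT hCODT hLOCN hCOLL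
  have hGOOD : T_GOOD := p_GOOD (p_SL p_SLE) p_NONE p_STAR
  have hSTEP : T_STEP := p_STEP (p_STEPG hGOOD p_KRAFT) p_SUB p_PATHS
  have hLB : T_LB := p_LB hSTEP p_UREC (p_ULOC p_UREC)
  have hDENS2 : T_DENS2 := p_DENS2 (p_BR p_RUNDT p_DEP) hLB p_RLEN p_NUM
  exact main_of p_CNT p_GEN (p_DENS1 hLOCN hORCLOC) hDENS2 (p_OPEN hLOC hORCLOC) p_SIG
    (p_UIN p_VALS (p_UZ p_STAY)) hNPP p_REPL

end Pool.Agent.Results.MP_68cb2e_lc.InfiniteHierarchy
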