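import Pool.Agent.LOA.MAIN
import Pool.Agent.LOA.ASK
import Pool.Agent.LOA.CHN
import Pool.Agent.LOA.CERT
import Pool.Agent.LOA.SPLIT
import Pool.Agent.LOA.PAR
import Pool.Agent.LOA.FRESH
import Pool.Agent.LOA.FIX
import Pool.Agent.LOA.DTFEW
import Pool.Agent.LOA.DTAM
import Pool.Agent.LOA.POL
import Pool.Agent.LOA.SYM
import Pool.Agent.LOA.SWI
import Pool.Agent.LOA.SYMB
import Pool.Agent.LOA.DTAW
import Pool.Agent.LOA.TREE0
import Pool.Agent.LOA.ROBFEW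
import Pool.Agent.LOA.ROBAW
import Pool.Agent.LOA.ROBAM
import Pool.Agent.LOA.LOCT
import Pool.Agent.LOA.ORCC
import Pool.Agent.LOA.VALC
import Pool.Agent.LOA.COLLC
import Pool.Agent.LOA.CLS
import Pool.Agent.LOA.GENC
import Pool.Agent.LOA.STEPC
import Pool.Agent.LOA.LBC
import Pool.Agent.LOA.BRC
import Pool.Agent.LOA.DENS2C
import Pool.Agent.LOA.OPENC
import Pool.Agent.LOA.DENS3
import Pool.Agent.LOA.PROG
import Pool.Agent.LOW.MAIN
import Pool.Agent.LOW.BR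
import Pool.Agent.LOW.CHAIN
import Pool.Agent.LOW.CNT
import Pool.Agent.LOW.CODT
import Pool.Agent.LOW.COLL
import Pool.Agent.LOW.DENS1
import Pool.Agent.LOW.DENS2
import Pool.Agent.LOW.DTT
import Pool.Agent.LOW.EVEN
import Pool.Agent.LOW.GEN
import Pool.Agent.LOW.GOOD
import Pool.Agent.LOW.LB
import Pool.Agent.LOW.LOCN
import Pool.Agent.LOW.MACH
import Pool.Agent.LOW.NPP
import Pool.Agent.LOW.OPEN
import Pool.Agent.LOW.ORC
import Pool.Agent.LOW.REPL
import Pool.Agent.LOW.ROBDT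
import Pool.Agent.LOW.RUNDT
import Pool.Agent.LOW.SEL
import Pool.Agent.LOW.SIG
import Pool.Agent.LOW.SL
import Pool.Agent.LOW.SLE
import Pool.Agent.LOW.SMALL
import Pool.Agent.LOW.STEP
import Pool.Agent.LOW.STEPG
import Pool.Agent.LOW.UNI
import Pool.Agent.LOW.UREC
import Pool.Agent.LOW.UZ
import Pool.Agent.LOW.VAL
import Pool.Agent.LOW.WTS

/-!
# Q1 fails relative to an oracle for which the known subclasses of NP with low sets are trivial
-/

set_option autoImplicit false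

namespace Pool.Agent.Results.MP_68cb2e_lc.TrivialSubclasses

open Pool.Agent.LOW Pool.Agent.LOA

/-- There is an oracle `O` such that, relative to `O`: `FewP`, `NP ∩ AWPP` and `NP ∩ coAM` are
contained in `P`, `NP` is not contained in `⊕P`, the polynomial hierarchy is infinite, and there is
a language `A` in `NP ∩ ⊕P` with `Σ_k^{P,A} ≠ Σ_k^P` for all `k`; the language `A` is even given by
one relation in `P` for which the number of witnesses is `0` or odd. -/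
theorem result : ∃ O : Lang,
    FewP O ⊆ P O emp ∧ NP O ∩ AWPP O ⊆ P O emp ∧ NP O ∩ CoAM O ⊆ P O emp ∧
    ¬ NP O ⊆ ParP O ∧
    (∀ k, Sigma k O emp ≠ Sigma (k + 1) O emp) ∧
    ∃ A ∈ NP O ∩ ParP O, (∀ k, Sigma k O A ≠ Sigma k O emp) ∧
      ∃ C ∈ P O emp, ∃ j : ℕ, ∀ x : List Bool,
        (A x = false → {y : List Bool | y.length ≤ (x.length + 2) ^ j ∧
          C (pair x y) = true}.ncard = 0) ∧
        (A x = true → Odd {y : List Bool | y.length ≤ (x.length + 2) ^ j ∧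
          C (pair x y) = true}.ncard) := by
  have hLOC : T_LOC := p_LOC p_LEN
  have hRUNDT : T_RUNDT := p_RUNDT
  have hTRNC : T_TRNC := p_TRNC
  have hDEPC : T_DEPC := p_DEPC
  have hVALSC : T_VALSC := p_VALSC
  have hORCLOCC : T_ORCLOCC := p_ORCLOCC hDEPC
  have hCOLLC : T_COLLC := p_COLLC hVALSC (p_VALC hTRNC) (p_UNI p_STAY)
  have hASK : T_ASK := p_ASK
  have hCERT : T_CERT := p_CERT hASK (p_CHN hASK)
  have hPAR : T_PAR := p_PAR
  have hDISJ : T_DISJ := p_DISJ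
  have hKEEP : T_KEEP := p_KEEP hPAR
  have hFRESH : T_FRESH := p_FRESH hDISJ
  have hFIX : T_FIX := p_FIX hPAR hDISJ hFRESH
  have hEVC : T_EVC := p_EVC hDISJ hFRESH
  have hTREE0 : T_TREE0 := p_TREE0 hRUNDT hDEPC
  have hDTFEW : T_DTFEW := p_DTFEW hASK hCERT hFIX
  have hDTAM : T_DTAM := p_DTAM hASK hCERT hFIX
  have hSWI : T_SWI := p_SWI hDISJ hPAR hFRESH p_POL p_SYM
  have hDTAW : T_DTAW := p_DTAW hASK hCERT hDISJ hPAR hEVC hKEEP p_POL (p_SYMB p_SYM) hSWI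
  have hROBFEW : T_ROBFEW := p_ROBFEW hTREE0 p_SPLIT p_NUML hDTFEW
  have hROBAW : T_ROBAW := p_ROBAW hTREE0 p_SPLIT p_NUML hDTAW
  have hROBAM : T_ROBAM := p_ROBAM hTREE0 p_SPLIT p_NUML hDTAM
  have hCLS : T_CLS := p_CLS hROBFEW hROBAW hROBAM hCOLLC
  have hGOOD : T_GOOD := p_GOOD (p_SL p_SLE) p_NONE p_STAR
  have hSTEPG : T_STEPG := p_STEPG hGOOD p_KRAFT
  have hSTEP : T_STEP := p_STEP hSTEPG p_SUB p_PATHS
  have hULOC : T_ULOC := p_ULOC p_UREC
  have hLB : T_LB := p_LB hSTEP p_UREC hULOC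
  have hLBC : T_LBC := p_LBC (p_STEPC hSTEPG p_SUB p_PATHS) hLB p_UREC hULOC
  have hDENS2C : T_DENS2C := p_DENS2C (p_BRC hRUNDT hDEPC) hLBC p_RLEN p_NUM
  have hDENS3 : T_DENS3 := p_DENS3 hDISJ hTREE0 hORCLOCC
  exact Pool.Agent.LOA.main_of p_CNT p_CNTT p_GENC (p_DENS1C p_LOCT hORCLOCC) hDENS2C hDENS3
    (p_OPENC hLOC hORCLOCC) p_SIG hCLS hVALSC (p_UZ p_STAY) (p_UZN p_STAY) (p_UAS p_STAY) p_UREC

end Pool.Agent.Results.MP_68cb2e_lc.TrivialSubclasses
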